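import Pool.Agent.Helper65.BR.PGoals

/-!
# Packet BR-PASY: the parameters for large `n`
-/

namespace Pool.Agent.Helper40.BR

open Pool.Agent.Helper65.LinSpace Pool.Agent.Helper78.Mpc Pool.Agent.Helper28.Ram Finset Filter
open Pool.Agent.Helper65.RT (qT CT)
open Pool.Agent.Helper28.Long (ZL)
open Pool.Agent.Helper65.BR
open scoped Topology

theorem ev_pow (K : ℝ) : ∀ᶠ n : ℕ in atTop, K * (ll n : ℝ) ^ 4 ≤ n := by
  have h1 : Tendsto (fun m : ℕ => (m : ℝ) ^ 4 / 2 ^ m) atTop (𝓝 0) :=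
    tendsto_pow_const_div_const_pow_of_one_lt 4 (by norm_num)
  have h2 : Tendsto (fun n : ℕ => ll n) atTop atTop :=
    tendsto_atTop.2 fun b => ev_ll_ge b
  have h3 := h1.comp h2
  have hK : 0 < 2 * (|K| + 1) := by positivity
  have h4 := h3.eventually_lt_const (show (0 : ℝ) < 1 / (2 * (|K| + 1)) by positivity)
  filter_upwards [h4, eventually_ge_atTop 1] with n hn hn1
  simp only [Function.comp_apply] at hn
  rw [div_lt_div_iff₀ (by positivity) hK, one_mul] at hn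
  have h5 : (2 : ℝ) ^ (ll n) ≤ 2 * n := by
    have h6 : 2 ^ Nat.log 2 n ≤ n := Nat.pow_log_le_self 2 (by omega)
    have h7 : 2 ^ (ll n) ≤ 2 * n := by
      unfold ll
      rw [pow_succ]
      omega
    exact_mod_cast h7
  have h8 : K * (ll n : ℝ) ^ 4 ≤ (|K| + 1) * (ll n : ℝ) ^ 4 :=
    mul_le_mul_of_nonneg_right (by linarith [le_abs_self K]) (by positivity)
  linarith

/-- the digits of the code of the bounds -/
theorem digits6 {n s a m R k E : ℕ} (hs : s ≤ ZL n) (ha : a ≤ ZL n) (hm : m ≤ ZL n)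
    (hR : R < n + 2) (hk : k < n + 2) (hE : E < n + 2) :
    ∃ T < (n + 2) ^ 6, bT n T 0 = s ∧ bT n T 1 = a ∧ bT n T 2 = m ∧ dig (n + 2) T 3 = R ∧
      dig (n + 2) T 4 = k ∧ dig (n + 2) T 5 = E := by
  have hz := Pool.Agent.Helper28.Long.ZL_le n
  have hd : ∀ i < 6, (![s, a, m, R, k, E] : Fin 6 → ℕ) (Fin.ofNat 6 i) < n + 2 := by
    intro i hi
    interval_cases i
    · show s < n + 2
      omega
    · show a < n + 2
      omega
    · show m < n + 2
      omega
    · show R < n + 2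
      omega
    · show k < n + 2
      omega
    · show E < n + 2
      omega
  refine ⟨tab (n + 2) 6 fun i => (![s, a, m, R, k, E] : Fin 6 → ℕ) (Fin.ofNat 6 i), tab_lt hd,
    ?_, ?_, ?_, ?_, ?_, ?_⟩
  · unfold bT
    rw [dig_tab hd (by norm_num)]
    exact min_eq_left hs
  · unfold bT
    rw [dig_tab hd (by norm_num)]
    exact min_eq_left ha
  · unfold bT
    rw [dig_tab hd (by norm_num)]
    exact min_eq_left hm
  · rw [dig_tab hd (by norm_num)]
    rfl
  · rw [dig_tab hd (by norm_num)]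
    rfl
  · rw [dig_tab hd (by norm_num)]
    rfl

/-- the inequalities between natural numbers -/
theorem pnats {n l m a R k q : ℕ} (hml : m + 1 ≤ l) (f1 : 3 * ((R + 1) * (a + 1)) ≤ q)
    (f2 : 3 * k ≤ q) (f3 : (k + 1) * (m + 1) ≤ 2 * q) (f3' : (k + 1) * (m + 1) ≤ 2 * (n + 1))
    (f4 : k * k * ((R + 1) * l) ≤ q * (n + 1)) :
    ∃ E, 0 < E ∧ E ≤ R + 1 ∧ (R / E + 1) * ((a + 1) * E) + E * (a + 1) ≤ 4 * q ∧
      k * (R / E + 1 + 2) ≤ 4 * q ∧ (k + 1) * (m + 1) ≤ 4 * q ∧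
      (k + 1) * ((m + 1) * E) ≤ 4 * (n + 1) := by
  by_cases hc : (k + 1) * (m + 1) * (R + 1) ≤ 4 * (n + 1)
  · refine ⟨R + 1, by omega, le_rfl, ?_, ?_, by omega, ?_⟩
    · have e : R / (R + 1) = 0 := Nat.div_eq_of_lt (by omega)
      rw [e]
      have e2 : (0 + 1) * ((a + 1) * (R + 1)) + (R + 1) * (a + 1) = 2 * ((R + 1) * (a + 1)) := by
        ring
      rw [e2]
      omega
    · have e : R / (R + 1) = 0 := Nat.div_eq_of_lt (by omega)
      rw [e]
      omega
    · have e : (k + 1) * ((m + 1) * (R + 1)) = (k + 1) * (m + 1) * (R + 1) := by ring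
      rw [e]
      exact hc
  · push Not at hc
    obtain ⟨W, hW⟩ : ∃ W : ℕ, W = (k + 1) * (m + 1) := ⟨_, rfl⟩
    rw [← hW] at hc f3 f3'
    have hW0 : 0 < W := by
      rw [hW]
      positivity
    obtain ⟨E, hE⟩ : ∃ E : ℕ, E = 4 * (n + 1) / W := ⟨_, rfl⟩
    have hEW : E * W ≤ 4 * (n + 1) := hE ▸ Nat.div_mul_le_self _ _
    have hEW2 : 4 * (n + 1) < (E + 1) * W := (Nat.div_lt_iff_lt_mul hW0).1 (by omega)
    have hEW3 : 2 * (n + 1) ≤ E * W := by
      have : (E + 1) * W = E * W + W := by ring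
      omega
    have hE0 : 0 < E := by
      rcases Nat.eq_zero_or_pos E with h | h
      · rw [h] at hEW3
        omega
      · exact h
    have hER : E < R + 1 := by
      by_contra h
      push Not at h
      have : W * (R + 1) ≤ E * W := by
        rw [mul_comm E W]
        exact Nat.mul_le_mul_left _ h
      omega
    obtain ⟨r, hr⟩ : ∃ r : ℕ, r = R / E := ⟨_, rfl⟩
    have hrE : r * E ≤ R := hr ▸ Nat.div_mul_le_self _ _
    have hkr : k * r ≤ q := by
      rcases Nat.eq_zero_or_pos k with h0 | h0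
      · rw [h0]
        omega
      · have e1 : k * r * (2 * (n + 1)) ≤ q * (2 * (n + 1)) := by
          calc k * r * (2 * (n + 1)) ≤ k * r * (E * W) := Nat.mul_le_mul_left _ hEW3
            _ = k * (r * E) * ((k + 1) * (m + 1)) := by rw [hW]; ring
            _ ≤ k * (R + 1) * (2 * k * l) :=
                Nat.mul_le_mul (Nat.mul_le_mul_left _ (by omega))
                  (Nat.mul_le_mul (by omega) hml)
            _ = 2 * (k * k * ((R + 1) * l)) := by ring
            _ ≤ 2 * (q * (n + 1)) := Nat.mul_le_mul_left _ f4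
            _ = q * (2 * (n + 1)) := by ring
        exact Nat.le_of_mul_le_mul_right e1 (by omega)
    refine ⟨E, hE0, by omega, ?_, ?_, by omega, ?_⟩
    · rw [← hr]
      have e1 : (r + 1) * ((a + 1) * E) + E * (a + 1) = (r * E + 2 * E) * (a + 1) := by ring
      rw [e1]
      have e2 : (r * E + 2 * E) * (a + 1) ≤ 3 * (R + 1) * (a + 1) :=
        Nat.mul_le_mul_right _ (by omega)
      have e3 : 3 * (R + 1) * (a + 1) = 3 * ((R + 1) * (a + 1)) := by ring
      omega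
    · rw [← hr]
      have e1 : k * (r + 1 + 2) = k * r + 3 * k := by ring
      omega
    · have e1 : (k + 1) * ((m + 1) * E) = E * W := by rw [hW]; ring
      omega

/-- the real inequalities -/
theorem preals {K N u l k R a q : ℝ} (hK : 1 ≤ K) (hu : 1000000 * K ≤ u) (hul : u ≤ l)
    (hk : 0 ≤ k) (hR : 0 ≤ R) (ha : 0 ≤ a) (hq : 0 ≤ q) (hN : 0 < N) (hqu : N ≤ q * u)
    (h1 : k ^ 2 * (R + 1) * l ^ 5 ≤ K * N ^ 2) (h2 : (R + 1) * (a + 1) * l ^ 2 ≤ K * N)
    (h3 : K * u ^ 4 ≤ N) :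
    3 * ((R + 1) * (a + 1)) ≤ q ∧ 3 * k ≤ q ∧ (k + 1) * l ≤ 2 * q ∧
      k * k * ((R + 1) * l) ≤ q * N ∧ k ≤ N ∧ l * u ^ 2 ≤ N := by
  have hl : 1000000 * K ≤ l := hu.trans hul
  have hl1 : 1000000 ≤ l := by linarith
  have hl0 : 0 < l := by linarith
  have hu0 : 0 < u := by linarith
  have hu1 : 1 ≤ u := by linarith
  have hK0 : 0 < K := by linarith
  have hql : N ≤ q * l := hqu.trans (mul_le_mul_of_nonneg_left hul hq)
  have hX1 : 1 ≤ (R + 1) * (a + 1) := by nlinarith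
  have hl2 : l ^ 2 ≤ K * N := by
    have e : 1 * l ^ 2 ≤ (R + 1) * (a + 1) * l ^ 2 :=
      mul_le_mul_of_nonneg_right hX1 (by positivity)
    linarith
  -- `f1`
  have g1 : (R + 1) * (a + 1) * 1000000 ≤ q := by
    have e1 : (R + 1) * (a + 1) * l * l ≤ K * q * l := by
      have e2 : (R + 1) * (a + 1) * l * l = (R + 1) * (a + 1) * l ^ 2 := by ring
      have e3 : K * N ≤ K * (q * l) := mul_le_mul_of_nonneg_left hql hK0.le
      have e4 : K * (q * l) = K * q * l := by ring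
      linarith
    have e5 : (R + 1) * (a + 1) * l ≤ K * q := le_of_mul_le_mul_right e1 hl0
    have e6 : (R + 1) * (a + 1) * (1000000 * K) ≤ (R + 1) * (a + 1) * l :=
      mul_le_mul_of_nonneg_left hl (by linarith)
    have e7 : K * ((R + 1) * (a + 1) * 1000000) ≤ K * q := by linarith
    exact le_of_mul_le_mul_left e7 hK0
  -- `k`
  have g2 : 1000 * (k * l ^ 2) ≤ N := by
    have e1 : k ^ 2 * l ^ 5 ≤ K * N ^ 2 := by
      have e2 : k ^ 2 * 1 * l ^ 5 ≤ k ^ 2 * (R + 1) * l ^ 5 :=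
        mul_le_mul_of_nonneg_right (mul_le_mul_of_nonneg_left (by linarith) (by positivity))
          (by positivity)
      linarith
    have e3 : (k ^ 2 * l ^ 4) * (1000000 * K) ≤ (k ^ 2 * l ^ 4) * l :=
      mul_le_mul_of_nonneg_left hl (by positivity)
    have e4 : (k ^ 2 * l ^ 4) * l = k ^ 2 * l ^ 5 := by ring
    have e5 : K * (1000 * (k * l ^ 2)) ^ 2 ≤ K * N ^ 2 := by
      have e6 : K * (1000 * (k * l ^ 2)) ^ 2 = (k ^ 2 * l ^ 4) * (1000000 * K) := by ring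
      linarith
    have e7 : (1000 * (k * l ^ 2)) ^ 2 ≤ N ^ 2 := le_of_mul_le_mul_left e5 hK0
    exact le_of_sq_le_sq e7 hN.le
  have g3 : 1000 * (k * l) ≤ q := by
    have e1 : 1000 * (k * l) * l ≤ q * l := by
      have e2 : 1000 * (k * l) * l = 1000 * (k * l ^ 2) := by ring
      linarith
    exact le_of_mul_le_mul_right e1 hl0
  have g4 : k ≤ k * l := le_mul_of_one_le_right hk (by linarith)
  -- `l u ^ 2 ≤ N`
  have g5 : l * u ^ 2 ≤ N := by
    have e1 : (l * u ^ 2) ^ 2 ≤ N ^ 2 := by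
      calc (l * u ^ 2) ^ 2 = l ^ 2 * u ^ 4 := by ring
        _ ≤ K * N * u ^ 4 := mul_le_mul_of_nonneg_right hl2 (by positivity)
        _ = N * (K * u ^ 4) := by ring
        _ ≤ N * N := mul_le_mul_of_nonneg_left h3 hN.le
        _ = N ^ 2 := by ring
    exact le_of_sq_le_sq e1 hN.le
  have g6 : l ≤ q := by
    have e1 : l * u ≤ q * u := by
      have e2 : l * u ≤ l * u ^ 2 := by
        have e3 : u ≤ u ^ 2 := by nlinarith
        exact mul_le_mul_of_nonneg_left e3 hl0.le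
      linarith
    exact le_of_mul_le_mul_right e1 hu0
  refine ⟨by linarith, by linarith, ?_, ?_, ?_, g5⟩
  · have e1 : (k + 1) * l = k * l + l := by ring
    have e2 : 0 ≤ k * l := by positivity
    linarith
  · have e1 : k ^ 2 * (R + 1) * l ^ 4 * l ≤ K * (q * N) * l := by
      have e2 : k ^ 2 * (R + 1) * l ^ 4 * l = k ^ 2 * (R + 1) * l ^ 5 := by ring
      have e3 : K * N ^ 2 ≤ K * (q * N) * l := by
        have e4 : N * N ≤ N * (q * l) := mul_le_mul_of_nonneg_left hql hN.le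
        have e5 : K * (N * N) ≤ K * (N * (q * l)) := mul_le_mul_of_nonneg_left e4 hK0.le
        have e6 : K * (N * (q * l)) = K * (q * N) * l := by ring
        have e7 : K * (N * N) = K * N ^ 2 := by ring
        linarith
      linarith
    have e8 : k ^ 2 * (R + 1) * l ^ 4 ≤ K * (q * N) := le_of_mul_le_mul_right e1 hl0
    have e9 : K ≤ l ^ 3 := by
      have e10 : l ≤ l ^ 3 := le_self_pow₀ (by linarith) (by norm_num)
      linarith
    have e11 : K * (k * k * ((R + 1) * l)) ≤ K * (q * N) := by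
      calc K * (k * k * ((R + 1) * l)) ≤ l ^ 3 * (k * k * ((R + 1) * l)) :=
            mul_le_mul_of_nonneg_right e9 (by positivity)
        _ = k ^ 2 * (R + 1) * l ^ 4 := by ring
        _ ≤ _ := e8
    exact le_of_mul_le_mul_left e11 hK0
  · have e1 : k ≤ k * l ^ 2 := le_mul_of_one_le_right hk (one_le_pow₀ (by linarith))
    have e2 : 0 ≤ k * l ^ 2 := by positivity
    linarith

/-- Packet BR-PASY. -/
theorem pasy : PASY_stmt := by
  intro C
  obtain ⟨K, hK⟩ : ∃ K : ℝ, K = max C 1 := ⟨_, rfl⟩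
  have hK1 : 1 ≤ K := hK ▸ le_max_right _ _
  have hCK : C ≤ K := hK ▸ le_max_left _ _
  obtain ⟨k1, hk1⟩ := exists_nat_gt (1000000 * K)
  filter_upwards [Pool.Agent.Helper28.Long.le_ZL C, Pool.Agent.Helper28.Long.le_ZL 1,
    ev_ll_ge k1, ev_pow K] with n hZ hZ1 hu hp k R s m a h1 h2 h3
  have hlog : ((ll n : ℕ) : ℝ) = (Nat.log 2 n : ℝ) + 1 := by
    unfold ll
    push_cast
    ring
  obtain ⟨u, hu'⟩ : ∃ u : ℕ, u = ll n := ⟨_, rfl⟩
  obtain ⟨l, hl⟩ : ∃ l : ℕ, l = m + u := ⟨_, rfl⟩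
  have hlr : (l : ℝ) = (m : ℝ) + ((Nat.log 2 n : ℝ) + 1) := by
    rw [hl, hu', Nat.cast_add, hlog]
  rw [← hlr] at h1 h2 h3
  rw [← hlog, ← hu'] at hZ hZ1
  rw [← hu'] at hu hp
  have hur : 1000000 * K ≤ (u : ℝ) := hk1.le.trans (by exact_mod_cast hu)
  have hu1 : (1 : ℝ) ≤ u := by linarith
  have hu0 : 0 < u := by
    rw [hu']
    exact ll_pos n
  have hm0 : (0 : ℝ) ≤ m := Nat.cast_nonneg _
  have hk0 : (0 : ℝ) ≤ k := Nat.cast_nonneg _
  have hR0 : (0 : ℝ) ≤ R := Nat.cast_nonneg _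
  have ha0 : (0 : ℝ) ≤ a := Nat.cast_nonneg _
  have hs0 : (0 : ℝ) ≤ s := Nat.cast_nonneg _
  have hn0 : (0 : ℝ) ≤ n := Nat.cast_nonneg _
  have hml : (m : ℝ) ≤ l := by
    rw [hl]
    push_cast
    linarith
  have hul : (u : ℝ) ≤ l := by
    rw [hl]
    push_cast
    linarith
  obtain ⟨q, hq⟩ : ∃ q : ℕ, q = qT n := ⟨_, rfl⟩
  have hq' : q = n / u + 1 := by
    rw [hq, hu']
    rfl
  have hqu : n + 1 ≤ q * u := by
    have e1 : n < (n / u + 1) * u := (Nat.div_lt_iff_lt_mul hu0).1 (by omega)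
    rw [hq']
    omega
  have hqn : q ≤ n + 1 := by
    rw [hq']
    exact Nat.succ_le_succ (Nat.div_le_self _ _)
  have hqur : (n : ℝ) + 1 ≤ q * u := by exact_mod_cast hqu
  have hC1 : C * ((n : ℝ) + 1) ≤ K * ((n : ℝ) + 1) := mul_le_mul_of_nonneg_right hCK (by linarith)
  have hC2 : C * ((n : ℝ) + 1) ^ 2 ≤ K * ((n : ℝ) + 1) ^ 2 :=
    mul_le_mul_of_nonneg_right hCK (by positivity)
  obtain ⟨p1, p2, p3, p4, p5, p6⟩ := preals (K := K) (N := (n : ℝ) + 1) (u := (u : ℝ))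
    (l := (l : ℝ)) (k := (k : ℝ)) (R := (R : ℝ)) (a := (a : ℝ)) (q := (q : ℝ)) hK1 hur hul hk0
    hR0 ha0 (Nat.cast_nonneg _) (by linarith) hqur (h1.trans hC2) (h2.trans hC1) (by linarith)
  have hu2 : (u : ℝ) ^ 2 ≤ (l : ℝ) ^ 2 := pow_le_pow_left₀ (by linarith) hul 2
  have zs : s ≤ ZL n := by
    refine hZ s ?_
    rw [le_div_iff₀ (by positivity)]
    have := mul_le_mul_of_nonneg_left hu2 hs0
    linarith
  have za : a ≤ ZL n := by
    refine hZ a ?_
    rw [le_div_iff₀ (by positivity)]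
    have e1 := mul_le_mul_of_nonneg_left hu2 ha0
    have e2 : (a : ℝ) * l ^ 2 ≤ ((R : ℝ) + 1) * ((a : ℝ) + 1) * l ^ 2 :=
      mul_le_mul_of_nonneg_right (by nlinarith) (by positivity)
    linarith
  have zm : m ≤ ZL n := by
    refine hZ1 m ?_
    rw [le_div_iff₀ (by positivity), one_mul]
    have := mul_le_mul_of_nonneg_right hml (by positivity : (0 : ℝ) ≤ (u : ℝ) ^ 2)
    linarith
  have hml' : m + 1 ≤ l := by omega
  have q1 : 3 * ((R + 1) * (a + 1)) ≤ q := by exact_mod_cast p1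
  have q2 : 3 * k ≤ q := by exact_mod_cast p2
  have q3 : (k + 1) * (m + 1) ≤ 2 * q := by
    have e1 : (k + 1) * l ≤ 2 * q := by exact_mod_cast p3
    exact (Nat.mul_le_mul_left _ hml').trans e1
  have q4 : k * k * ((R + 1) * l) ≤ q * (n + 1) := by exact_mod_cast p4
  have q5 : k ≤ n + 1 := by exact_mod_cast p5
  obtain ⟨E, hE0, hER, c1, c2, c3, c4⟩ := pnats hml' q1 q2 q3 (q3.trans (by omega)) q4
  have hR2 : R + 1 ≤ n + 1 := by
    have e1 : (R + 1) * 1 ≤ (R + 1) * (a + 1) := Nat.mul_le_mul_left _ (by omega)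
    omega
  obtain ⟨T, hT, d0, d1, d2, d3, d4, d5⟩ := digits6 (E := E) zs za zm (by omega : R < n + 2)
    (by omega : k < n + 2) (by omega)
  refine ⟨T, hT, d0, d1, d2, d3, d4, ?_⟩
  unfold oP gP
  rw [d1, d2, d3, d4, d5, ← hq]
  unfold lt01 le01
  rw [if_pos hE0, if_pos c1, if_pos c2, if_pos c3, if_pos c4]

end Pool.Agent.Helper40.BR
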