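import Pool.Agent.Helper65.BR.Goals

/-!
# Packet BR-LSK: the acceptance function is computed in linear space
-/

namespace Pool.Agent.Helper40.BR

open Pool.Agent.Helper65.LinSpace Pool.Agent.Helper78.Mpc Pool.Agent.Helper28.Ram Finset
open Pool.Agent.Helper65.RT (qT CT)
open Pool.Agent.Helper65.BR
open Pool.Agent.Helper65

theorem accN_le (v : ℕ) : accN v ≤ 1 := by
  unfold accN lt01
  split_ifs
  · have := Nat.mod_lt v (y := 2) (by norm_num)
    omega
  · omega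

theorem term_le (hT : TRU_stmt) (hP : PAR_stmt) (s : RT.Sim) (e x y T p : ℕ) :
    lt01 0 p * s.sim (Nat.log 2 x) (prm e x y T p).mach.rt ≤ 1 := by
  obtain ⟨h1, h2⟩ := hP e x y T p
  rw [s.eq _ _ (hT.ok _ h2) h1, hT.tr _ h2]
  have h3 : lt01 0 p ≤ 1 := by
    unfold lt01
    split_ifs <;> omega
  exact (Nat.mul_le_mul h3 (accN_le _)).trans (by norm_num)

theorem ls_pow (hL : LSP_stmt) {α : Type} [Ctx α] {e x y T : α → ℕ}
    (he : LS e) (hx : LS x) (hy : LS y) (hT : LS T) :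
    LS (fun z => 2 ^ (bT (Nat.log 2 (x z)) (T z) 0 + 1)) := by
  have h := hL (α := α) he hx hy hT (LS.const 0)
  exact LS.pow_of_le (f := fun _ => 2) (LS.const 2) h.s h.bd h.hs

theorem ls_sim (hR : LSR_stmt) (hTr : TRU_stmt) (hP : PAR_stmt) (hL : LSP_stmt) (s : RT.Sim)
    {α : Type} [Ctx α] {e x y T p : α → ℕ}
    (he : LS e) (hx : LS x) (hy : LS y) (hT : LS T) (hp : LS p) :
    LS (fun z => s.sim (Nat.log 2 (x z)) (prm (e z) (x z) (y z) (T z) (p z)).mach.rt) := by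
  refine s.ls (m := fun z => (prm (e z) (x z) (y z) (T z) (p z)).mach.rt) hx
    (hR hx (hL he hx hy hT hp) fun z => ?_) fun z => (hP _ _ _ _ _).1
  obtain ⟨h1, h2⟩ := hP (e z) (x z) (y z) (T z) (p z)
  exact s.nv _ _ (hTr.ok _ h2) h1

/-- Packet BR-LSK. -/
theorem lsk (hTr : TRU_stmt) (hR : LSR_stmt) (hP : PAR_stmt) (hL : LSP_stmt) : LSK_stmt := by
  intro s
  constructor
  · unfold accF
    refine LS.sum_le (N := fun z : ℕ × ℕ × ℕ × ℕ => 2 ^ (bT (Nat.log 2 z.2.1) z.2.2.2 0 + 1))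
      (B := fun _ => 1)
      (f := fun z p => lt01 0 p * s.sim (Nat.log 2 z.2.1)
        (prm z.1 z.2.1 z.2.2.1 z.2.2.2 p).mach.rt) ?_ ?_ (LS.const 1)
      fun z p _ => term_le hTr hP s _ _ _ _ _
    · refine LS.mul (LS.lt01 (LS.const 0) LS.snd) ?_
      exact ls_sim (α := (ℕ × ℕ × ℕ × ℕ) × ℕ) hR hTr hP hL s (e := fun z => z.1.1)
        (x := fun z => z.1.2.1) (y := fun z => z.1.2.2.1) (T := fun z => z.1.2.2.2)
        (p := fun z => z.2) (by fun_prop) (by fun_prop) (by fun_prop) (by fun_prop) (by fun_prop)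
    · exact ls_pow hL (e := fun z : ℕ × ℕ × ℕ × ℕ => z.1) (x := fun z => z.2.1)
        (y := fun z => z.2.2.1) (T := fun z => z.2.2.2) (by fun_prop) (by fun_prop)
        (by fun_prop) (by fun_prop)
  · unfold NF
    fun_prop

end Pool.Agent.Helper40.BR
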